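import Pool.Agent.H71.VK.Stmt

/-!
Elementary properties of the orbit relation of the group generated by the swaps.
-/

set_option autoImplicit false

open Set Pool.Agent.TK

namespace Pool.Agent.H33.VK

open Pool.Agent.H71.VK

variable {C : Type}

theorem n0_aut (T : Set (Fl C)) (M : St C) : N0 T M ≤ AutG M := by
  unfold N0
  rw [Subgroup.closure_le]
  intro f hf
  exact hf.1

theorem edge_map (M : St C) (n : Equiv.Perm ℕ) (hn : IsoH n M M) (l : List ℕ) :
    edge M (l.map n) = edge M l := by
  rcases l with _ | ⟨u, _ | ⟨v, _ | ⟨w, l⟩⟩⟩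
  · rfl
  · rfl
  · exact (hn.1 u v).symm
  · rfl

theorem reindex_map (n : Equiv.Perm ℕ) (π l : List ℕ) :
    (reindex π l).map n = reindex π (l.map n) := by
  unfold reindex
  rw [List.map_filterMap]
  congr 1
  funext i
  rw [List.getElem?_map]

theorem pf_RLB {C : Type} : RLB C := by
  intro T M
  refine ⟨⟨fun l => ⟨1, one_mem _, by simp⟩, ?_, ?_⟩, ?_, ?_⟩
  · rintro l m ⟨n, hn, rfl⟩
    refine ⟨n⁻¹, inv_mem hn, ?_⟩
    rw [List.map_map, ← Equiv.Perm.coe_mul, inv_mul_cancel]
    simp
  · rintro l m k ⟨n, hn, rfl⟩ ⟨n', hn', rfl⟩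
    refine ⟨n' * n, mul_mem hn' hn, ?_⟩
    rw [List.map_map, ← Equiv.Perm.coe_mul]
  · rintro l m ⟨n, hn, rfl⟩
    have h : IsoH n M M := n0_aut T M hn
    refine ⟨?_, ?_, ?_⟩
    · unfold cval
      rw [edge_map M n h l]
      congr 1
      exact h.2 l
    · simp
    · intro π
      exact ⟨n, hn, reindex_map n π l⟩
  · intro l m
    constructor
    · rintro ⟨n, hn, rfl⟩
      unfold N0 at hn
      revert l
      induction hn using Subgroup.closure_induction with
      | mem x hx =>
        intro l
        exact Relation.ReflTransGen.single ⟨x, hx, rfl⟩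
      | one =>
        intro l
        have : l.map (1 : Equiv.Perm ℕ) = l := by simp
        rw [this]
      | mul x y _ _ hx hy =>
        intro l
        have : l.map (x * y : Equiv.Perm ℕ) = (l.map y).map x := by
          rw [List.map_map, ← Equiv.Perm.coe_mul]
        rw [this]
        exact (hy l).trans (hx (l.map y))
      | inv x _ hx =>
        intro l
        have h1 := hx (l.map (x⁻¹ : Equiv.Perm ℕ))
        have h2 : (l.map (x⁻¹ : Equiv.Perm ℕ)).map x = l := by
          rw [List.map_map, ← Equiv.Perm.coe_mul, mul_inv_cancel]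
          simp
        rw [h2] at h1
        have hs : ∀ a b, Mv T M a b → Mv T M b a := by
          rintro a b ⟨f, hf, rfl⟩
          refine ⟨f, hf, ?_⟩
          rw [List.map_map]
          have : (f ∘ f : ℕ → ℕ) = id := funext hf.2.1
          rw [this, List.map_id]
        have hs' : ∀ a b, Relation.ReflTransGen (Mv T M) a b → Relation.ReflTransGen (Mv T M) b a := by
          intro a b hab
          induction hab with
          | refl => exact Relation.ReflTransGen.refl
          | tail _ h2 ih => exact (Relation.ReflTransGen.single (hs _ _ h2)).trans ih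
        exact hs' _ _ h1
    · intro h
      induction h with
      | refl => exact ⟨1, one_mem _, by simp⟩
      | tail _ h2 ih =>
        obtain ⟨n, hn, rfl⟩ := ih
        obtain ⟨f, hf, rfl⟩ := h2
        refine ⟨f * n, mul_mem (Subgroup.subset_closure hf) hn, ?_⟩
        rw [List.map_map, ← Equiv.Perm.coe_mul]

end Pool.Agent.H33.VK
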